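import Pool.Agent.helper7.BQ.Spec

set_option autoImplicit false

namespace Pool.Agent.BQ

open Finset ArithmeticFunction MeasureTheory Filter Topology

private theorem TLS_sum : Summable (fun l : ℕ => (16 / (l : ℝ) ^ 2)) := by
  have h : Summable (fun n : ℕ => 1 / (n : ℝ) ^ 2) :=
    Real.summable_one_div_nat_pow.2 (by norm_num)
  have h2 := h.mul_left 16
  refine h2.congr fun n => ?_
  ring

private theorem TLS_prod (P : Finset ℕ) (f : ℕ → ℝ) (hf : ∀ l, 0 ≤ f l) :
    ∏ l ∈ P, (1 + f l) ≤ Real.exp (∑ l ∈ P, f l) := by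
  rw [Real.exp_sum]
  refine Finset.prod_le_prod (fun l _ => by linarith [hf l]) fun l _ => ?_
  linarith [Real.add_one_le_exp (f l)]

private theorem TLS_one (P : Finset ℕ) {g : ℕ → ℝ} (hg : ∀ l ∈ P, 1 ≤ g l) : 1 ≤ ∏ l ∈ P, g l := by
  induction P using Finset.induction_on with
  | empty => simp
  | insert a s ha ih =>
    rw [Finset.prod_insert ha]
    have h1 := hg a (Finset.mem_insert_self a s)
    have h2 := ih fun l hl => hg l (Finset.mem_insert_of_mem hl)
    nlinarith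

private theorem TLS_split (P : Finset ℕ) (w : ℕ) (f : ℕ → ℝ) :
    ∑ S ∈ P.powerset.filter (fun S => ∃ l ∈ S, w < l), ∏ l ∈ S, f l =
      (∏ l ∈ P.filter (fun l => l ≤ w), (1 + f l)) *
        (∏ l ∈ P.filter (fun l => ¬ l ≤ w), (1 + f l) - 1) := by
  have h1 : ∏ l ∈ P, (1 + f l) = ∑ S ∈ P.powerset, ∏ l ∈ S, f l := Finset.prod_one_add _
  have h2 : ∏ l ∈ P.filter (fun l => l ≤ w), (1 + f l) =
      ∑ S ∈ (P.filter (fun l => l ≤ w)).powerset, ∏ l ∈ S, f l := Finset.prod_one_add _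
  have h3 : ∏ l ∈ P, (1 + f l) = (∏ l ∈ P.filter (fun l => l ≤ w), (1 + f l)) *
      ∏ l ∈ P.filter (fun l => ¬ l ≤ w), (1 + f l) :=
    (Finset.prod_filter_mul_prod_filter_not P (fun l => l ≤ w) _).symm
  have h4 := Finset.sum_filter_add_sum_filter_not P.powerset (fun S => ∃ l ∈ S, w < l)
    (fun S => ∏ l ∈ S, f l)
  have h5 : P.powerset.filter (fun S => ¬ ∃ l ∈ S, w < l) =
      (P.filter (fun l => l ≤ w)).powerset := by
    ext S
    simp only [Finset.mem_filter, Finset.mem_powerset, not_exists, not_and, not_lt]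
    constructor
    · rintro ⟨h, h'⟩ l hl
      exact Finset.mem_filter.2 ⟨h hl, h' l hl⟩
    · intro h
      exact ⟨fun l hl => (Finset.mem_filter.1 (h hl)).1,
        fun l hl => (Finset.mem_filter.1 (h hl)).2⟩
  rw [h5, ← h2, ← h1, h3] at h4
  linarith

private theorem TLS_le (Q w : ℕ) (f : ℕ → ℝ) (hf : ∀ l, 0 ≤ f l) :
    ∑ q ∈ (Ioc 0 Q).filter (fun q => Squarefree q ∧ ∃ l ∈ q.primeFactors, w < l),
      ∏ l ∈ q.primeFactors, f l ≤
    ∑ S ∈ ((Finset.range (Q + 1)).powerset.filter (fun S => ∃ l ∈ S, w < l)),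
      ∏ l ∈ S, f l := by
  have hinj : Set.InjOn Nat.primeFactors
      (((Ioc 0 Q).filter (fun q => Squarefree q ∧ ∃ l ∈ q.primeFactors, w < l) : Finset ℕ) :
        Set ℕ) := by
    intro a ha b hb hab
    have h1 := (Finset.mem_filter.1 (Finset.mem_coe.1 ha)).2.1
    have h2 := (Finset.mem_filter.1 (Finset.mem_coe.1 hb)).2.1
    rw [← Nat.prod_primeFactors_of_squarefree h1, ← Nat.prod_primeFactors_of_squarefree h2]
    rw [hab]
  rw [← Finset.sum_image (g := Nat.primeFactors)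
    (f := fun S : Finset ℕ => ∏ l ∈ S, f l) hinj]
  refine Finset.sum_le_sum_of_subset_of_nonneg ?_ fun S _ _ => Finset.prod_nonneg fun l _ => hf l
  intro S hS
  obtain ⟨q, hq, rfl⟩ := Finset.mem_image.1 hS
  obtain ⟨hq1, hq2, hq3⟩ := Finset.mem_filter.1 hq
  refine Finset.mem_filter.2 ⟨Finset.mem_powerset.2 fun l hl => ?_, hq3⟩
  have h1 := Nat.le_of_mem_primeFactors hl
  have h2 := (Finset.mem_Ioc.1 hq1).2
  exact Finset.mem_range.2 (by omega)

theorem TLS : TLS_stmt := by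
  intro ε hε
  set f : ℕ → ℝ := fun l => 16 / (l : ℝ) ^ 2 with hfdef
  have hf : ∀ l, 0 ≤ f l := fun l => by rw [hfdef]; positivity
  have hs : Summable f := TLS_sum
  set A : ℝ := Real.exp (∑' l, f l) with hA
  have hApos : 0 < A := Real.exp_pos _
  have ht : Tendsto (fun i : ℕ => A * (Real.exp (∑' k, f (k + i)) - 1)) atTop (𝓝 0) := by
    have h0 := tendsto_sum_nat_add f
    have h1 := (Real.continuous_exp.tendsto 0).comp h0
    rw [Real.exp_zero] at h1
    have h2 := (h1.sub_const 1).const_mul A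
    simpa using h2
  obtain ⟨w₀, hw₀⟩ := Filter.eventually_atTop.1 (ht.eventually (ge_mem_nhds hε))
  refine ⟨w₀, fun w hw Q => ?_⟩
  refine (TLS_le Q w f hf).trans ?_
  rw [TLS_split]
  have h3 := hw₀ (w + 1) (by omega)
  refine le_trans ?_ h3
  have h4 : ∏ l ∈ (Finset.range (Q + 1)).filter (fun l => l ≤ w), (1 + f l) ≤ A := by
    refine (TLS_prod _ f hf).trans (Real.exp_le_exp.2 ?_)
    exact hs.sum_le_tsum _ fun l _ => hf l
  have h5 : ∏ l ∈ (Finset.range (Q + 1)).filter (fun l => ¬ l ≤ w), (1 + f l) ≤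
      Real.exp (∑' k, f (k + (w + 1))) := by
    refine (TLS_prod _ f hf).trans (Real.exp_le_exp.2 ?_)
    have hs' : Summable (fun k => f (k + (w + 1))) := (summable_nat_add_iff (w + 1)).2 hs
    have h6 : ∑ l ∈ (Finset.range (Q + 1)).filter (fun l => ¬ l ≤ w), f l ≤
        ∑ k ∈ Finset.range Q, f (k + (w + 1)) := by
      have hinj : Set.InjOn (fun k : ℕ => k + (w + 1)) ((Finset.range Q : Finset ℕ) : Set ℕ) := by
        intro a _ b _ hab
        simpa using hab
      rw [← Finset.sum_image (g := fun k : ℕ => k + (w + 1)) (f := f) hinj]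
      refine Finset.sum_le_sum_of_subset_of_nonneg ?_ fun l _ _ => hf l
      intro l hl
      obtain ⟨hl1, hl2⟩ := Finset.mem_filter.1 hl
      have hl3 := Finset.mem_range.1 hl1
      refine Finset.mem_image.2 ⟨l - (w + 1), Finset.mem_range.2 ?_, ?_⟩
      · omega
      · omega
    exact h6.trans (hs'.sum_le_tsum _ fun k _ => hf _)
  have h7 : 1 ≤ ∏ l ∈ (Finset.range (Q + 1)).filter (fun l => ¬ l ≤ w), (1 + f l) :=
    TLS_one _ fun l _ => by linarith [hf l]
  refine mul_le_mul h4 (by linarith) (by linarith) hApos.le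

end Pool.Agent.BQ
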